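import Mathlib
import Pool.Agent.Q80.RR

/-!
# Falling factorials of `k(k+1)` are Legendre multiplier sequences
-/

open Polynomial Finset

namespace Pool.Agent.Results.MP_c016d9_an.FallingFactorials

open Q80.RR

/-! ### Square roots and sums of squares -/

/-- If `ρ² = V` with `Re V ≤ ... ` written as `X - Y`, and `(Im V / 2)² ≤ X Y`, then
`(Im ρ)² ≤ Y`. -/
lemma sqrt_im {ρ : ℂ} {X Y : ℝ} (hX : 0 ≤ X) (hY : 0 ≤ Y) (h1 : ρ.re ^ 2 - ρ.im ^ 2 = X - Y)
    (h2 : (ρ.re * ρ.im) ^ 2 ≤ X * Y) : ρ.im ^ 2 ≤ Y := by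
  by_contra hcon
  push Not at hcon
  have h3 : X < ρ.re ^ 2 := by linarith
  have h4 : X * Y < ρ.re ^ 2 * ρ.im ^ 2 := by
    calc X * Y ≤ X * ρ.im ^ 2 := mul_le_mul_of_nonneg_left hcon.le hX
      _ < ρ.re ^ 2 * ρ.im ^ 2 := mul_lt_mul_of_pos_right h3 (lt_of_le_of_lt hY hcon)
  have : (ρ.re * ρ.im) ^ 2 = ρ.re ^ 2 * ρ.im ^ 2 := by ring
  linarith

/-- The bilinear form has no zeros: `z` in the upper, `t, t'` in the lower half-plane. -/
lemma bilinear {a β c : ℝ} (ha : 0 ≤ a) (hβ : 0 ≤ β) (hc : 0 < c) (h : c * β ≤ a ^ 2)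
    {z t t' : ℂ} (hz : 0 < z.im) (ht : t.im < 0) (ht' : t'.im < 0) :
    (c : ℂ) * (z ^ 2 - 1) - a * z * (t + t') + β * (t * t') ≠ 0 := by
  intro heq
  set T : ℂ := (t + t') / 2 with hT
  set E : ℂ := (t - t') / 2 with hE
  have hTim : T.im = (t.im + t'.im) / 2 := by
    rw [hT, show (2 : ℂ) = ((2 : ℝ) : ℂ) by norm_num, Complex.div_ofReal_im, Complex.add_im]
  have hEim : E.im = (t.im - t'.im) / 2 := by
    rw [hE, show (2 : ℂ) = ((2 : ℝ) : ℂ) by norm_num, Complex.div_ofReal_im, Complex.sub_im]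
  have hTE : E.im ^ 2 ≤ T.im ^ 2 := by
    rw [hTim, hEim]; nlinarith
  set ρ : ℂ := c * z - a * T with hρ
  have hsq : ρ ^ 2 = ((a ^ 2 - c * β : ℝ) : ℂ) * T ^ 2 + ((c * β : ℝ) : ℂ) * E ^ 2 + ((c ^ 2 : ℝ) : ℂ) := by
    have e1 : t + t' = 2 * T := by rw [hT]; ring
    have e2 : t * t' = T ^ 2 - E ^ 2 := by rw [hT, hE]; ring
    rw [e1, e2] at heq
    rw [hρ]
    push_cast
    linear_combination (c : ℂ) * heq
  have hre := congrArg Complex.re hsq
  have him := congrArg Complex.im hsq
  simp only [Complex.add_re, Complex.add_im, Complex.re_ofReal_mul, Complex.im_ofReal_mul, sq,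
    Complex.mul_re, Complex.mul_im, Complex.ofReal_re, Complex.ofReal_im] at hre him
  set δ : ℝ := a * a - c * β with hδ
  have hδ0 : 0 ≤ δ := by rw [hδ]; nlinarith
  have hcβ : 0 ≤ c * β := by positivity
  have key := sqrt_im (ρ := ρ) (X := δ * T.re ^ 2 + c * β * E.re ^ 2 + c ^ 2)
    (Y := δ * T.im ^ 2 + c * β * E.im ^ 2) (by positivity) (by positivity)
    (by nlinarith [hre]) (by
      have h1 : ρ.re * ρ.im = δ * (T.re * T.im) + c * β * (E.re * E.im) := by linarith
      rw [h1]
      have h2 : (δ * (T.re * T.im) + c * β * (E.re * E.im)) ^ 2 ≤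
          (δ * T.re ^ 2 + c * β * E.re ^ 2) * (δ * T.im ^ 2 + c * β * E.im ^ 2) := by
        have : (δ * T.re ^ 2 + c * β * E.re ^ 2) * (δ * T.im ^ 2 + c * β * E.im ^ 2) -
            (δ * (T.re * T.im) + c * β * (E.re * E.im)) ^ 2 =
            δ * (c * β) * (T.re * E.im - T.im * E.re) ^ 2 := by ring
        have h3 : 0 ≤ δ * (c * β) * (T.re * E.im - T.im * E.re) ^ 2 := by positivity
        linarith
      have h4 : 0 ≤ c ^ 2 * (δ * T.im ^ 2 + c * β * E.im ^ 2) := by positivity
      nlinarith)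
  have hY : δ * T.im ^ 2 + c * β * E.im ^ 2 ≤ (a * T.im) ^ 2 := by
    have : c * β * E.im ^ 2 ≤ c * β * T.im ^ 2 := mul_le_mul_of_nonneg_left hTE hcβ
    have e : (a * T.im) ^ 2 = δ * T.im ^ 2 + c * β * T.im ^ 2 := by rw [hδ]; ring
    linarith
  have hρim : ρ.im = c * z.im - a * T.im := by
    rw [hρ, Complex.sub_im, Complex.im_ofReal_mul, Complex.im_ofReal_mul]
  have hTneg : T.im < 0 := by rw [hTim]; linarith
  have h1 : 0 < c * z.im := mul_pos hc hz
  have h2 : 0 ≤ -(a * T.im) := by nlinarith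
  have h3 : (a * T.im) ^ 2 < ρ.im ^ 2 := by
    rw [hρim]; nlinarith
  linarith

/-! ### Logarithmic derivatives -/

lemma inv_im_neg {z : ℂ} (hz : 0 < z.im) (r : ℝ) : ((z - r)⁻¹).im < 0 := by
  rw [Complex.inv_im]
  apply div_neg_of_neg_of_pos
  · simp [hz]
  · apply Complex.normSq_pos.2
    intro h
    have := congrArg Complex.im h
    simp at this
    linarith

lemma sub_ne {z : ℂ} (hz : 0 < z.im) (r : ℝ) : z - r ≠ 0 := by
  intro h
  have := congrArg Complex.im h
  simp at this
  linarith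

lemma derivs (s : Multiset ℝ) {z : ℂ} (hz : 0 < z.im) :
    let g : ℝ[X] := (s.map (fun r => X - C r)).prod
    aeval z g ≠ 0 ∧
    aeval z (derivative g) = aeval z g * (s.map fun r : ℝ => (z - r)⁻¹).sum ∧
    aeval z (derivative (derivative g)) = aeval z g * ((s.map fun r : ℝ => (z - r)⁻¹).sum ^ 2 -
      (s.map fun r : ℝ => ((z - r)⁻¹) ^ 2).sum) := by
  induction s using Multiset.induction with
  | empty => simp
  | cons a s ih =>
    obtain ⟨h1, h2, h3⟩ := ih
    simp only [Multiset.map_cons, Multiset.prod_cons, Multiset.sum_cons]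
    set g : ℝ[X] := (s.map (fun r => X - C r)).prod
    have ha := sub_ne hz a
    have e1 : aeval z (X - C a : ℝ[X]) = z - a := by simp
    have d1 : derivative ((X - C a) * g) = g + (X - C a) * derivative g := by
      rw [derivative_mul, derivative_X_sub_C, one_mul]
    have d2 : derivative (derivative ((X - C a) * g)) =
        2 * derivative g + (X - C a) * derivative (derivative g) := by
      rw [d1, derivative_add, derivative_mul, derivative_X_sub_C]; ring
    refine ⟨?_, ?_, ?_⟩
    · rw [map_mul, e1]; exact mul_ne_zero ha h1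
    · rw [d1, map_add, map_mul, map_mul, e1, h2]
      field_simp
    · rw [d2, map_add, map_mul, map_mul, map_mul, e1, h2, h3]
      have : aeval z (2 : ℝ[X]) = 2 := map_ofNat (aeval z) 2
      rw [this]
      field_simp
      ring

/-- Two numbers in the lower half-plane with the same first two elementary symmetric means. -/
lemma two_means {N : ℕ} (hN : 2 ≤ N) (w : Fin N → ℂ) (hw : ∀ i, (w i).im < 0) :
    ∃ α α' : ℂ, α.im < 0 ∧ α'.im < 0 ∧ (N : ℂ) * (α + α') = 2 * ∑ i, w i ∧
      (N : ℂ) * ((N : ℂ) - 1) * (α * α') = (∑ i, w i) ^ 2 - ∑ i, w i ^ 2 := by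
  have hN0 : (0 : ℝ) < N := by exact_mod_cast (by omega : 0 < N)
  have hN1 : (0 : ℝ) < (N : ℝ) - 1 := by
    have : (2 : ℝ) ≤ N := by exact_mod_cast hN
    linarith
  have hNc : (N : ℂ) ≠ 0 := by exact_mod_cast hN0.ne'
  have hNc1 : (N : ℂ) - 1 ≠ 0 := by
    intro h
    have : (((N : ℝ) - 1 : ℝ) : ℂ) = 0 := by push_cast; exact h
    exact hN1.ne' (by exact_mod_cast this)
  set e : ℂ := ∑ i, w i with he
  set M : ℂ := e / N with hM
  set κ : ℝ := 1 / (N * ((N : ℝ) - 1)) with hκ
  have hκ0 : 0 < κ := by positivity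
  obtain ⟨ρ, hρ⟩ := IsAlgClosed.exists_pow_nat_eq ((κ : ℂ) * ∑ i, (w i - M) ^ 2) (n := 2) (by norm_num)
  have hMre : M.re = e.re / N := by rw [hM, Complex.div_natCast_re]
  have hMim : M.im = e.im / N := by rw [hM, Complex.div_natCast_im]
  have heim : e.im = ∑ i, (w i).im := by rw [he, Complex.im_sum]
  -- the sum of squares
  have hsum : ∑ i, (w i - M) ^ 2 = ∑ i, w i ^ 2 - e ^ 2 / N := by
    have : ∀ i, (w i - M) ^ 2 = w i ^ 2 - 2 * M * w i + M ^ 2 := fun i => by ring
    simp_rw [this]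
    rw [Finset.sum_add_distrib, Finset.sum_sub_distrib, ← Finset.mul_sum, ← he, Finset.sum_const,
      Finset.card_univ, Fintype.card_fin, nsmul_eq_mul, hM]
    field_simp
    ring
  have hρre := congrArg Complex.re hρ
  have hρim := congrArg Complex.im hρ
  rw [Complex.re_ofReal_mul, Complex.re_sum] at hρre
  rw [Complex.im_ofReal_mul, Complex.im_sum] at hρim
  simp only [sq, Complex.mul_re, Complex.mul_im, Complex.sub_re, Complex.sub_im] at hρre hρim
  set ξ : Fin N → ℝ := fun i => (w i).re - M.re with hξ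
  set η : Fin N → ℝ := fun i => (w i).im - M.im with hη
  have h1 : ρ.re ^ 2 - ρ.im ^ 2 = κ * ∑ i, ξ i ^ 2 - κ * ∑ i, η i ^ 2 := by
    rw [← mul_sub, ← Finset.sum_sub_distrib]
    calc ρ.re ^ 2 - ρ.im ^ 2 = ρ.re * ρ.re - ρ.im * ρ.im := by ring
      _ = _ := hρre
      _ = _ := by
        congr 1
        apply Finset.sum_congr rfl
        intro i _
        simp only [hξ, hη]; ring
  have h2 : ρ.re * ρ.im = κ * ∑ i, ξ i * η i := by
    have : ρ.re * ρ.im + ρ.im * ρ.re = 2 * (κ * ∑ i, ξ i * η i) := by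
      rw [hρim, Finset.mul_sum, Finset.mul_sum, Finset.mul_sum]
      apply Finset.sum_congr rfl
      intro i _
      simp only [hξ, hη]; ring
    linarith
  have hCS : (∑ i, ξ i * η i) ^ 2 ≤ (∑ i, ξ i ^ 2) * ∑ i, η i ^ 2 :=
    Finset.sum_mul_sq_le_sq_mul_sq _ _ _
  have hX0 : 0 ≤ ∑ i, ξ i ^ 2 := Finset.sum_nonneg fun i _ => sq_nonneg _
  have hY0 : 0 ≤ ∑ i, η i ^ 2 := Finset.sum_nonneg fun i _ => sq_nonneg _
  have key := sqrt_im (ρ := ρ) (X := κ * ∑ i, ξ i ^ 2) (Y := κ * ∑ i, η i ^ 2) (by positivity)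
    (by positivity) h1 (by
      rw [h2]
      calc (κ * ∑ i, ξ i * η i) ^ 2 = κ ^ 2 * (∑ i, ξ i * η i) ^ 2 := by ring
        _ ≤ κ ^ 2 * ((∑ i, ξ i ^ 2) * ∑ i, η i ^ 2) := by gcongr
        _ = _ := by ring)
  -- strict bound for the sum of squares
  have hY : ∑ i, η i ^ 2 = ∑ i, (w i).im ^ 2 - e.im ^ 2 / N := by
    have : ∀ i, η i ^ 2 = (w i).im ^ 2 - 2 * M.im * (w i).im + M.im ^ 2 := fun i => by
      simp only [hη]; ring
    simp_rw [this]
    rw [Finset.sum_add_distrib, Finset.sum_sub_distrib, ← Finset.mul_sum, ← heim, Finset.sum_const,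
      Finset.card_univ, Fintype.card_fin, nsmul_eq_mul, hMim]
    field_simp
    ring
  have hstrict : ∑ i, (w i).im ^ 2 < e.im ^ 2 := by
    have hlt : ∀ i, e.im < (w i).im := by
      intro i
      rw [heim, ← Finset.add_sum_erase _ _ (Finset.mem_univ i)]
      have : ∑ j ∈ Finset.univ.erase i, (w j).im < 0 := by
        apply Finset.sum_neg
        · intro j _; exact hw j
        · rw [← Finset.card_pos, Finset.card_erase_of_mem (Finset.mem_univ i), Finset.card_univ,
            Fintype.card_fin]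
          omega
      linarith
    have : e.im ^ 2 = ∑ i, (w i).im * e.im := by
      rw [← Finset.sum_mul, ← heim]; ring
    rw [this]
    apply Finset.sum_lt_sum_of_nonempty
    · exact ⟨⟨0, by omega⟩, Finset.mem_univ _⟩
    · intro i _
      nlinarith [hw i, hlt i]
  have hfin : κ * ∑ i, η i ^ 2 < M.im ^ 2 := by
    rw [hY, hMim, hκ]
    have : 1 / ((N : ℝ) * (N - 1)) * (∑ i, (w i).im ^ 2 - e.im ^ 2 / N) <
        1 / ((N : ℝ) * (N - 1)) * (e.im ^ 2 - e.im ^ 2 / N) := by
      apply mul_lt_mul_of_pos_left _ (by positivity)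
      linarith
    refine this.trans_le (le_of_eq ?_)
    field_simp
  have hlt : ρ.im ^ 2 < M.im ^ 2 := lt_of_le_of_lt key hfin
  have hMneg : M.im < 0 := by
    rw [hMim, heim]
    apply div_neg_of_neg_of_pos _ hN0
    apply Finset.sum_neg
    · intro j _; exact hw j
    · exact ⟨⟨0, by omega⟩, Finset.mem_univ _⟩
  have habs := abs_lt_of_sq_lt_sq hlt
  refine ⟨M + ρ, M - ρ, ?_, ?_, ?_, ?_⟩
  · rw [Complex.add_im]; nlinarith
  · rw [Complex.sub_im]; nlinarith
  · rw [hM]; field_simp; ring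
  · have : (M + ρ) * (M - ρ) = M ^ 2 - ρ ^ 2 := by ring
    rw [this, hρ, hsum, hM, hκ]
    push_cast
    field_simp
    ring

/-! ### The operators `(x² - 1)∂² + 2a x∂ + β` -/

/-- `S r = (x² - 1) r'' + 2a x r' + β r` -/
noncomputable def Sop (a β : ℝ) (r : ℝ[X]) : ℝ[X] :=
  (X ^ 2 - 1) * derivative (derivative r) + C (2 * a) * X * derivative r + C β * r

lemma onlyReal_of_natDegree_le_one {p : ℝ[X]} (h : p.natDegree ≤ 1) : OnlyReal p := by
  by_cases hp : p = 0
  · exact Or.inl hp
  right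
  intro z hz
  obtain ⟨a, b, rfl⟩ := exists_eq_X_add_C_of_natDegree_le_one h
  have h1 : (a : ℂ) * z + b = 0 := by simpa using hz
  have him := congrArg Complex.im h1
  have hre := congrArg Complex.re h1
  simp at him hre
  rcases him with h2 | h2
  · exfalso
    apply hp
    rw [h2, zero_mul, zero_add] at hre
    rw [h2, hre]; simp
  · exact h2

lemma onlyReal_of_upper {p : ℝ[X]} (h : ∀ z : ℂ, 0 < z.im → aeval z p ≠ 0) : OnlyReal p := by
  right
  intro z hz
  rcases lt_trichotomy z.im 0 with h1 | h1 | h1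
  · exfalso
    apply h (starRingEnd ℂ z) (by simpa using h1)
    rw [aeval_conj, hz, map_zero]
  · exact h1
  · exact absurd hz (h z h1)

lemma natDegree_Sop_le {a β : ℝ} {r : ℝ[X]} (h : r.natDegree ≤ 1) : (Sop a β r).natDegree ≤ 1 := by
  have h1 : (derivative r).natDegree ≤ 0 := (natDegree_derivative_le r).trans (by omega)
  have h2 : derivative (derivative r) = 0 := by
    rw [eq_C_of_natDegree_le_zero h1, derivative_C]
  unfold Sop
  rw [h2, mul_zero, zero_add]
  refine (natDegree_add_le _ _).trans (max_le ?_ ?_)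
  · refine natDegree_mul_le.trans ?_
    have : (C (2 * a) * X : ℝ[X]).natDegree ≤ 1 := (natDegree_C_mul_le _ _).trans natDegree_X_le
    omega
  · exact (natDegree_C_mul_le _ _).trans h

theorem Sop_onlyReal {a β : ℝ} (ha : 0 ≤ a) (hβ : 0 ≤ β) (hab : β ≤ a ^ 2) {r : ℝ[X]}
    (hr : OnlyReal r) : OnlyReal (Sop a β r) := by
  rcases hr with rfl | hr
  · left; simp [Sop]
  rcases Nat.lt_or_ge r.natDegree 2 with hdeg | hdeg
  · exact onlyReal_of_natDegree_le_one (natDegree_Sop_le (by omega))
  have hr0 : r ≠ 0 := by rintro rfl; simp at hdeg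
  obtain ⟨s, hs, hfac⟩ := exists_factor r hr
  apply onlyReal_of_upper
  intro z hz
  obtain ⟨h1, h2, h3⟩ := derivs s hz
  set g : ℝ[X] := (s.map (fun r => X - C r)).prod
  set N := r.natDegree with hN
  -- index the roots
  have hlen : s.toList.length = N := by rw [Multiset.length_toList, hs]
  set y : Fin N → ℝ := fun i => s.toList.get (i.cast hlen.symm) with hy
  have hsy : s = Finset.univ.val.map y := by
    have e1 : (Finset.univ : Finset (Fin N)).val.map y = (List.ofFn y : Multiset ℝ) :=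
      Fin.univ_val_map y
    rw [e1]
    have e2 : List.ofFn y = s.toList := by
      apply List.ext_get
      · simp [hlen]
      · intro n h1 h2; simp [hy]
    rw [e2, Multiset.coe_toList]
  set w : Fin N → ℂ := fun i => (z - y i)⁻¹ with hw
  have hsum1 : (s.map fun r : ℝ => (z - r)⁻¹).sum = ∑ i, w i := by
    rw [hsy, Multiset.map_map]; rfl
  have hsum2 : (s.map fun r : ℝ => ((z - r)⁻¹) ^ 2).sum = ∑ i, w i ^ 2 := by
    rw [hsy, Multiset.map_map]; rfl
  rw [hsum1] at h2 h3
  rw [hsum2] at h3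
  obtain ⟨α, α', hα, hα', hsum, hprod⟩ := two_means hdeg w (fun i => inv_im_neg hz _)
  rw [← hprod] at h3
  have hN0 : (0 : ℝ) < N := by exact_mod_cast (by omega : 0 < N)
  have hN1 : (0 : ℝ) < (N : ℝ) - 1 := by
    have : (2 : ℝ) ≤ N := by exact_mod_cast hdeg
    linarith
  have hNc : (N : ℂ) ≠ 0 := by exact_mod_cast hN0.ne'
  have hα0 : α ≠ 0 := by rintro rfl; simp at hα
  have hα0' : α' ≠ 0 := by rintro rfl; simp at hα'
  have hneg : ∀ u : ℂ, u.im < 0 → (-((N : ℂ) * u)⁻¹).im < 0 := by
    intro u hu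
    rw [Complex.neg_im, Complex.inv_im]
    have e : ((N : ℂ) * u).im = N * u.im := by
      rw [← Complex.ofReal_natCast, Complex.im_ofReal_mul]
    rw [e]
    have : 0 < Complex.normSq ((N : ℂ) * u) := by
      apply Complex.normSq_pos.2
      apply mul_ne_zero hNc
      rintro rfl; simp at hu
    have h5 : 0 < -(N * u.im) / Complex.normSq ((N : ℂ) * u) := by
      apply div_pos _ this
      nlinarith
    linarith
  have hb := bilinear (a := a) (β := β) (c := ((N : ℝ) - 1) / N) ha hβ (by positivity) (by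
    have h4 : ((N : ℝ) - 1) / N ≤ 1 := by rw [div_le_one hN0]; linarith
    nlinarith) hz (hneg α hα) (hneg α' hα')
  have haev : aeval z (Sop a β r) = r.leadingCoeff * aeval z g *
      ((z ^ 2 - 1) * ((N : ℂ) * ((N : ℂ) - 1) * (α * α')) + 2 * a * z * ∑ i, w i + β) := by
    unfold Sop
    rw [hfac]
    simp only [derivative_C_mul, map_add, map_mul, map_sub, map_pow, map_one, aeval_X, aeval_C,
      Complex.coe_algebraMap, h2, h3]
    push_cast
    simp only [leadingCoeff_mul, leadingCoeff_C]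
    have hgl : g.leadingCoeff = 1 := by
      have : g.Monic := monic_multiset_prod_of_monic _ _ fun i _ => monic_X_sub_C i
      exact this
    rw [hgl]
    push_cast
    ring
  rw [haev]
  apply mul_ne_zero (mul_ne_zero _ h1)
  · intro hzero
    apply hb
    have e2 : ∑ i, w i = (N : ℂ) * (α + α') / 2 := by rw [hsum]; ring
    rw [e2] at hzero
    have e3 : ((z ^ 2 - 1) * ((N : ℂ) * ((N : ℂ) - 1) * (α * α')) +
      2 * a * z * ((N : ℂ) * (α + α') / 2) + β) = 0 := hzero
    push_cast
    field_simp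
    linear_combination e3
  · have : r.leadingCoeff ≠ 0 := leadingCoeff_ne_zero.2 hr0
    exact_mod_cast this

lemma onlyReal_derivative {p : ℝ[X]} (h : OnlyReal p) : OnlyReal (derivative p) := by
  rcases h with rfl | hr
  · left; simp
  by_cases hd : derivative p = 0
  · exact Or.inl hd
  obtain ⟨s, hs, hfac⟩ := exists_factor p hr
  apply onlyReal_of_upper
  intro z hz
  obtain ⟨h1, h2, -⟩ := derivs s hz
  have hs0 : s ≠ 0 := by
    rintro rfl
    apply hd
    rw [hfac]; simp
  rw [hfac, derivative_C_mul, map_mul, h2]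
  apply mul_ne_zero
  · rw [aeval_C, Complex.coe_algebraMap]
    have : p.leadingCoeff ≠ 0 := by
      intro h0
      apply hd
      rw [leadingCoeff_eq_zero.1 h0]; simp
    exact_mod_cast this
  · apply mul_ne_zero h1
    intro hzero
    have him := congrArg Complex.im hzero
    have hneg : ∀ t : Multiset ℝ, t ≠ 0 → ((t.map fun r : ℝ => (z - r)⁻¹).sum).im < 0 := by
      intro t
      induction t using Multiset.induction with
      | empty => intro h; exact absurd rfl h
      | cons a t ih =>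
        intro _
        rw [Multiset.map_cons, Multiset.sum_cons, Complex.add_im]
        have h3 := inv_im_neg hz a
        rcases eq_or_ne t 0 with rfl | ht
        · simpa using h3
        · linarith [ih ht]
    have := hneg s hs0
    rw [him] at this
    simp at this

lemma onlyReal_mul {p q : ℝ[X]} (hp : OnlyReal p) (hq : OnlyReal q) : OnlyReal (p * q) := by
  rcases hp with rfl | hp
  · left; simp
  rcases hq with rfl | hq
  · left; simp
  right
  intro z hz
  rw [map_mul] at hz
  rcases mul_eq_zero.1 hz with h | h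
  · exact hp z h
  · exact hq z h

lemma onlyReal_iterate_derivative {p : ℝ[X]} (h : OnlyReal p) (m : ℕ) :
    OnlyReal (derivative^[m] p) := by
  induction m with
  | zero => exact h
  | succ m ih => rw [Function.iterate_succ_apply']; exact onlyReal_derivative ih

/-! ### The Legendre operator -/

/-- `D p = ((x² - 1) p')'` -/
noncomputable def Dop (p : ℝ[X]) : ℝ[X] := derivative ((X ^ 2 - 1) * derivative p)

/-- `(D - j) p` -/
noncomputable def Dj (j : ℕ) (p : ℝ[X]) : ℝ[X] := Dop p - C (j : ℝ) * p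

/-- `∏_{j < n} (D - j)` -/
noncomputable def Gop : ℕ → ℝ[X] → ℝ[X]
  | 0, p => p
  | (n + 1), p => Dj n (Gop n p)

lemma Dop_add (p q : ℝ[X]) : Dop (p + q) = Dop p + Dop q := by
  unfold Dop; rw [derivative_add, mul_add, derivative_add]

lemma Dop_C_mul (c : ℝ) (p : ℝ[X]) : Dop (C c * p) = C c * Dop p := by
  unfold Dop; rw [derivative_C_mul, mul_left_comm, derivative_C_mul]

lemma Dj_add (j : ℕ) (p q : ℝ[X]) : Dj j (p + q) = Dj j p + Dj j q := by
  unfold Dj; rw [Dop_add]; ring

lemma Dj_C_mul (j : ℕ) (c : ℝ) (p : ℝ[X]) : Dj j (C c * p) = C c * Dj j p := by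
  unfold Dj; rw [Dop_C_mul]; ring

lemma Dj_Dop (j : ℕ) (p : ℝ[X]) : Dj j (Dop p) = Dop (Dj j p) := by
  unfold Dj
  have : Dop (Dop p - C (j : ℝ) * p) = Dop (Dop p) - C (j : ℝ) * Dop p := by
    rw [sub_eq_add_neg, ← neg_mul, ← C_neg, Dop_add, Dop_C_mul, C_neg]; ring
  rw [this]

lemma Dj_comm (i j : ℕ) (p : ℝ[X]) : Dj i (Dj j p) = Dj j (Dj i p) := by
  have h : Dj i (Dj j p) = Dj i (Dop p) - C (j : ℝ) * Dj i p := by
    conv_lhs => unfold Dj
    unfold Dj
    have : Dop (Dop p - C (j : ℝ) * p) = Dop (Dop p) - C (j : ℝ) * Dop p := by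
      rw [sub_eq_add_neg, ← neg_mul, ← C_neg, Dop_add, Dop_C_mul, C_neg]; ring
    rw [this]; ring
  rw [h, Dj_Dop]; rfl

lemma c2 : (C (2 : ℝ) : ℝ[X]) = 2 := map_ofNat C 2

/-- `∂^m (D - j) = ((x² - 1)∂² + 2(m+1)x∂ + m(m+1) - j) ∂^m` -/
lemma iterate_Dj (m j : ℕ) (p : ℝ[X]) : derivative^[m] (Dj j p) =
    Sop ((m : ℝ) + 1) ((m : ℝ) * (m + 1) - j) (derivative^[m] p) := by
  induction m with
  | zero =>
    unfold Dj Dop Sop
    simp only [Function.iterate_zero, id, Nat.cast_zero]
    rw [derivative_mul]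
    simp only [derivative_sub, derivative_pow, derivative_X, derivative_one, map_sub, map_mul,
      map_add, map_ofNat, map_one, map_zero]
    simp [c2]
    ring
  | succ m ih =>
    rw [Function.iterate_succ_apply', ih, Function.iterate_succ_apply']
    unfold Sop
    set q := derivative^[m] p
    simp only [derivative_add, derivative_sub, derivative_mul, derivative_pow, derivative_X,
      derivative_one, derivative_C, map_sub, map_mul, map_add, map_ofNat, map_one, Nat.cast_add,
      Nat.cast_one, map_natCast]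
    simp
    ring

/-- `A_m p = ∂^m (x² - 1)^m ∂^m p` -/
noncomputable def Aop (m : ℕ) (p : ℝ[X]) : ℝ[X] :=
  derivative^[m] ((X ^ 2 - 1) ^ m * derivative^[m] p)

lemma Aop_succ (m : ℕ) (p : ℝ[X]) : Aop m (Dj (m * (m + 1)) p) = Aop (m + 1) p := by
  unfold Aop
  rw [iterate_Dj, Function.iterate_succ_apply, Function.iterate_succ_apply']
  congr 1
  unfold Sop
  set q := derivative^[m] p
  rw [derivative_mul, derivative_pow]
  simp only [derivative_sub, derivative_pow, derivative_X, derivative_one]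
  push_cast
  simp
  ring

/-- The structure of the operators `∏_{j < n} (D - j)`. -/
lemma structure_Gop (n : ℕ) : ∃ (m : ℕ) (W : ℝ[X] → ℝ[X]), n ≤ m * (m + 1) ∧
    (∀ p, Gop n p = Aop m (W p)) ∧ (∀ j p, W (Dj j p) = Dj j (W p)) ∧
    (∀ p, OnlyReal p → OnlyReal (derivative^[m] (W p))) := by
  induction n with
  | zero =>
    refine ⟨0, id, by simp, ?_, fun _ _ => rfl, fun p hp => hp⟩
    intro p
    simp [Gop, Aop]
  | succ n ih =>
    obtain ⟨m, W, h1, h2, h3, h4⟩ := ih
    have hcomm : ∀ p, Gop n (Dj n p) = Dj n (Gop n p) := by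
      intro p
      have : ∀ k : ℕ, Gop k (Dj n p) = Dj n (Gop k p) := by
        intro k
        induction k with
        | zero => rfl
        | succ k ihk => rw [Gop, ihk, Gop, Dj_comm]
      exact this n
    rcases h1.eq_or_lt with h | h
    · refine ⟨m + 1, W, by rw [h]; nlinarith, ?_, h3, ?_⟩
      · intro p
        rw [Gop, ← hcomm, h2, h3, h, Aop_succ]
      · intro p hp
        rw [Function.iterate_succ_apply']
        exact onlyReal_derivative (h4 p hp)
    · refine ⟨m, fun p => W (Dj n p), h, ?_, ?_, ?_⟩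
      · intro p
        rw [Gop, ← hcomm, h2]
      · intro j p
        show W (Dj n (Dj j p)) = Dj j (W (Dj n p))
        rw [Dj_comm, h3]
      · intro p hp
        show OnlyReal (derivative^[m] (W (Dj n p)))
        rw [h3, iterate_Dj]
        have hcast : (n : ℝ) ≤ (m : ℝ) * (m + 1) := by exact_mod_cast h1
        have hn0 : (0 : ℝ) ≤ n := Nat.cast_nonneg n
        have hm0 : (0 : ℝ) ≤ m := Nat.cast_nonneg m
        exact Sop_onlyReal (by positivity) (by linarith) (by nlinarith) (h4 p hp)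

theorem Gop_onlyReal (n : ℕ) {p : ℝ[X]} (hp : OnlyReal p) : OnlyReal (Gop n p) := by
  obtain ⟨m, W, h1, h2, h3, h4⟩ := structure_Gop n
  rw [h2]
  apply onlyReal_iterate_derivative
  apply onlyReal_mul _ (h4 p hp)
  right
  intro z hz
  rw [map_pow, map_sub, map_pow, aeval_X, map_one] at hz
  have h6 : z ^ 2 - 1 = 0 := by
    by_contra hcon
    exact (pow_ne_zero m hcon) hz
  have h7 : (z - 1) * (z + 1) = 0 := by linear_combination h6
  rcases mul_eq_zero.1 h7 with h8 | h8
  · have : z = 1 := by linear_combination h8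
    rw [this]; simp
  · have : z = -1 := by linear_combination h8
    rw [this]; simp

/-! ### Legendre multiplier sequences -/

/-- `P` is a family of Legendre polynomials (in an arbitrary normalisation): `P k` has degree `k`
and solves `(1 - x²) y'' - 2 x y' + k (k + 1) y = 0`. -/
def IsLegendre (P : ℕ → ℝ[X]) : Prop :=
  ∀ k : ℕ, (P k).degree = k ∧
    (1 - X ^ 2) * derivative (derivative (P k)) - 2 * X * derivative (P k) +
      (k : ℝ[X]) * ((k : ℝ[X]) + 1) * P k = 0

/-- The real sequence `γ` is a Legendre multiplier sequence: for every normalisation `P` of the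
Legendre polynomials, the linear operator `Γ` with `Γ (P k) = γ k • P k` maps polynomials with only
real zeros to polynomials with only real zeros (or to the zero polynomial). -/
def IsLegendreMS (γ : ℕ → ℝ) : Prop :=
  ∀ P : ℕ → ℝ[X], IsLegendre P → ∀ Γ : ℝ[X] →ₗ[ℝ] ℝ[X], (∀ k, Γ (P k) = γ k • P k) →
    ∀ p : ℝ[X], (p = 0 ∨ ∀ z : ℂ, aeval z p = 0 → z.im = 0) →
      (Γ p = 0 ∨ ∀ z : ℂ, aeval z (Γ p) = 0 → z.im = 0)

/-- `γ^{(n)}_k = m_k (m_k - 1) ⋯ (m_k - n + 1)` with `m_k = k (k + 1)`. -/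
noncomputable def gam (n k : ℕ) : ℝ := ∏ j ∈ Finset.range n, (((k * (k + 1) : ℕ) : ℝ) - j)

lemma Dop_legendre {P : ℕ → ℝ[X]} (hP : IsLegendre P) (k : ℕ) :
    Dop (P k) = C (((k * (k + 1) : ℕ) : ℝ)) * P k := by
  have h := (hP k).2
  unfold Dop
  rw [derivative_mul]
  simp only [derivative_sub, derivative_pow, derivative_X, derivative_one]
  push_cast
  simp only [map_mul, map_add, map_natCast, map_one]
  simp [c2]
  linear_combination -h

lemma Gop_legendre {P : ℕ → ℝ[X]} (hP : IsLegendre P) (n k : ℕ) : Gop n (P k) = gam n k • P k := by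
  induction n with
  | zero => simp [Gop, gam]
  | succ n ih =>
    rw [Gop, ih, smul_eq_C_mul, Dj_C_mul, Dj, Dop_legendre hP, smul_eq_C_mul, gam, gam,
      Finset.prod_range_succ, map_mul, map_sub]
    ring

/-- `∏_{j < n} (D - j)` as a linear map. -/
noncomputable def GopL (n : ℕ) : ℝ[X] →ₗ[ℝ] ℝ[X] where
  toFun := Gop n
  map_add' p q := by
    induction n with
    | zero => rfl
    | succ n ih => rw [Gop, ih, Dj_add]; rfl
  map_smul' c p := by
    rw [RingHom.id_apply]
    induction n with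
    | zero => rfl
    | succ n ih => rw [Gop, ih, smul_eq_C_mul, Dj_C_mul, smul_eq_C_mul]; rfl

lemma eq_GopL {P : ℕ → ℝ[X]} (hP : IsLegendre P) (n : ℕ) (Γ : ℝ[X] →ₗ[ℝ] ℝ[X])
    (hΓ : ∀ k, Γ (P k) = gam n k • P k) : Γ = GopL n := by
  let S : Polynomial.Sequence ℝ := ⟨P, fun k => (hP k).1⟩
  have hspan : Submodule.span ℝ (Set.range P) = ⊤ := by
    apply S.span
    intro i
    exact (leadingCoeff_ne_zero.2 (S.ne_zero i)).isUnit
  apply LinearMap.ext_on hspan
  rintro _ ⟨k, rfl⟩
  rw [hΓ]
  exact (Gop_legendre hP n k).symm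

/-! ### Existence of the Legendre polynomials (sanity) -/

/-- Rodrigues' formula, without normalisation. -/
noncomputable def rod (k : ℕ) : ℝ[X] := derivative^[k] ((X ^ 2 - 1) ^ k)

lemma rod_ode (k m : ℕ) :
    let u : ℝ[X] := (X ^ 2 - 1) ^ k
    (X ^ 2 - 1) * derivative^[m + 2] u + C (2 * ((m : ℝ) + 1)) * X * derivative^[m + 1] u +
      C ((m : ℝ) * (m + 1)) * derivative^[m] u =
    C (2 * (k : ℝ)) * X * derivative^[m + 1] u + C (2 * (k : ℝ) * (m + 1)) * derivative^[m] u := by
  intro u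
  have h0 : (X ^ 2 - 1) * derivative u = C (2 * (k : ℝ)) * X * u := by
    rcases Nat.eq_zero_or_pos k with rfl | hk
    · simp [u]
    · obtain ⟨j, rfl⟩ : ∃ j, k = j + 1 := ⟨k - 1, by omega⟩
      simp only [u]
      rw [derivative_pow]
      simp only [Nat.add_sub_cancel, derivative_sub, derivative_pow, derivative_X, derivative_one]
      simp
      ring
  induction m with
  | zero =>
    have h1 := congrArg derivative h0
    simp only [Function.iterate_succ_apply', Function.iterate_zero, id] 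
    rw [derivative_mul, derivative_mul, derivative_mul] at h1
    simp only [derivative_sub, derivative_pow, derivative_X, derivative_one, derivative_C] at h1
    simp at h1 ⊢
    linear_combination h1
  | succ m ih =>
    have h1 := congrArg derivative ih
    simp only [Function.iterate_succ_apply'] at h1 ⊢
    set v := derivative^[m] u
    simp only [derivative_add, derivative_sub, derivative_mul, derivative_pow, derivative_X,
      derivative_one, derivative_C, map_mul, map_add, map_ofNat, map_one, map_natCast] at h1 ⊢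
    simp at h1 ⊢
    linear_combination h1

lemma isLegendre_rod : IsLegendre rod := by
  intro k
  constructor
  · have hm : ((X ^ 2 - 1 : ℝ[X]) ^ k).Monic := by
      apply Monic.pow
      have : (X ^ 2 - 1 : ℝ[X]) = X ^ 2 - C 1 := by simp
      rw [this]
      exact monic_X_pow_sub_C _ (by norm_num)
    have hd : ((X ^ 2 - 1 : ℝ[X]) ^ k).natDegree = 2 * k := by
      rw [natDegree_pow]
      have : (X ^ 2 - 1 : ℝ[X]) = X ^ 2 - C 1 := by simp
      rw [this, natDegree_X_pow_sub_C, mul_comm]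
    have hcoeff : (rod k).coeff k ≠ 0 := by
      unfold rod
      rw [coeff_iterate_derivative]
      have : ((X ^ 2 - 1 : ℝ[X]) ^ k).coeff (k + k) = 1 := by
        rw [← two_mul, ← hd]; exact hm
      rw [this]
      simp only [nsmul_eq_mul, mul_one]
      have h0 : (k + k).descFactorial k ≠ 0 := by
        intro h; rw [Nat.descFactorial_eq_zero_iff_lt] at h; omega
      exact_mod_cast h0
    apply le_antisymm
    · apply degree_le_of_natDegree_le
      unfold rod
      refine (natDegree_iterate_derivative _ k).trans ?_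
      rw [hd]; omega
    · exact le_degree_of_ne_zero hcoeff
  · rcases Nat.eq_zero_or_pos k with rfl | hk
    · simp [rod]
    · have h := rod_ode k k
      simp only [Function.iterate_succ_apply', ← rod.eq_def] at h
      simp only [map_mul, map_add, map_ofNat, map_one, map_natCast] at h
      linear_combination -h

/-- **Q1 is true.** For every `n ≥ 1` (also for `n = 0`) the falling factorials
`γ^{(n)}_k = m_k (m_k - 1) ⋯ (m_k - n + 1)`, `m_k = k (k + 1)`, form a Legendre multiplier sequence.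
(The first two clauses say that the definition is not vacuous: Legendre families exist and so does
the operator attached to the sequence.) -/
theorem result :
    (∃ P, IsLegendre P) ∧
    (∀ n : ℕ, ∀ P : ℕ → ℝ[X], IsLegendre P → ∃ Γ : ℝ[X] →ₗ[ℝ] ℝ[X], ∀ k, Γ (P k) = gam n k • P k) ∧
    ∀ n : ℕ, IsLegendreMS (gam n) := by
  refine ⟨⟨rod, isLegendre_rod⟩, fun n P hP => ⟨GopL n, fun k => Gop_legendre hP n k⟩, ?_⟩
  intro n P hP Γ hΓ p hp
  rw [eq_GopL hP n Γ hΓ]
  exact Gop_onlyReal n hp

end Pool.Agent.Results.MP_c016d9_an.FallingFactorials
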